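import Mathlib
import Pool.Agent.H3.BI.Stm1

set_option autoImplicit false

open scoped ENNReal
open Finset MeasureTheory
open Pool.Agent.H3.BI

namespace Pool.Agent.H37.BD

/-! ### Second moment of the offspring law -/

theorem pmf_sum_one (ν : PMF ℕ) : HasSum (fun m : ℕ => (ν m).toReal) 1 := by
  have h := ν.tsum_coe
  have h1 : Summable (fun m : ℕ => (ν m).toReal) := by
    apply ENNReal.summable_toReal
    rw [h]; exact ENNReal.one_ne_top
  have h2 : ∑' m : ℕ, (ν m).toReal = 1 := by
    rw [← ENNReal.tsum_toReal_eq (fun m => ν.apply_ne_top m), h]; rfl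
  rw [← h2]
  exact h1.hasSum

theorem summable_sq (ν : PMF ℕ) (h : ConditionH ν) :
    Summable (fun m : ℕ => (ν m).toReal * (m : ℝ) ^ 2) := by
  obtain ⟨lam, hl, hs⟩ := h.expo
  refine Summable.of_nonneg_of_le (fun m => by positivity) (fun m => ?_) (hs.mul_left (2 / lam ^ 2))
  have h1 := Real.quadratic_le_exp_of_nonneg (x := lam * m) (by positivity)
  have h2 : (m : ℝ) ^ 2 ≤ 2 / lam ^ 2 * Real.exp (lam * m) := by
    have h3 : (lam * m) ^ 2 / 2 ≤ Real.exp (lam * m) := by
      have : 0 ≤ lam * (m : ℝ) := by positivity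
      linarith
    calc (m : ℝ) ^ 2 = 2 / lam ^ 2 * ((lam * m) ^ 2 / 2) := by field_simp
      _ ≤ _ := mul_le_mul_of_nonneg_left h3 (by positivity)
  calc (ν m).toReal * (m : ℝ) ^ 2 ≤ (ν m).toReal * (2 / lam ^ 2 * Real.exp (lam * m)) :=
        mul_le_mul_of_nonneg_left h2 ENNReal.toReal_nonneg
    _ = _ := by ring

theorem hasSum_fac (ν : PMF ℕ) (h : ConditionH ν) :
    HasSum (fun m : ℕ => (ν m).toReal * ((m : ℝ) * (m - 1))) (sg2 ν) := by
  have h2 := (summable_sq ν h).hasSum
  have h1 := h.mean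
  have h0 := pmf_sum_one ν
  have h3 : HasSum (fun m : ℕ => (ν m).toReal * ((m : ℝ) - 1) ^ 2)
      (∑' m : ℕ, (ν m).toReal * (m : ℝ) ^ 2 - 2 * 1 + 1) := by
    have := (h2.sub (h1.mul_left 2)).add h0
    refine this.congr_fun ?_ |> fun h => h
    intro m
    ring
  have h4 : HasSum (fun m : ℕ => (ν m).toReal * ((m : ℝ) * (m - 1)))
      (∑' m : ℕ, (ν m).toReal * (m : ℝ) ^ 2 - 1) := by
    have := h2.sub h1
    refine this.congr_fun ?_ |> fun h => h
    intro m
    ring
  have h5 : sg2 ν = ∑' m : ℕ, (ν m).toReal * (m : ℝ) ^ 2 - 1 := by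
    unfold sg2
    rw [h3.tsum_eq]; ring
  rw [h5]; exact h4

theorem hasSum_zero (ν : PMF ℕ) (c : ℝ) :
    HasSum (fun m : ℕ => (ν m).toReal * (if m = 0 then 0 else c)) ((1 - (ν 0).toReal) * c) := by
  have h0 := pmf_sum_one ν
  have h1 : HasSum (fun m : ℕ => if m = 0 then (ν 0).toReal else 0) ((ν 0).toReal) := by
    convert hasSum_ite_eq (0 : ℕ) ((ν 0).toReal) using 1
  have h2 := (h0.sub h1).mul_right c
  refine h2.congr_fun ?_ |> fun h => h
  intro m
  by_cases hm : m = 0
  · subst hm; simp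
  · simp [hm]


/-! ### Elementary facts -/

theorem l1_eq_zero {d : ℕ} {x : Site d} (h : l1 x = 0) : x = 0 := by
  unfold l1 at h
  rw [Finset.sum_eq_zero_iff] at h
  funext i
  have := h i (Finset.mem_univ i)
  simpa using this

theorem l1_neg {d : ℕ} (x : Site d) : l1 (-x) = l1 x := by
  unfold l1; simp

theorem exists_not_mem {d : ℕ} (hd : 3 ≤ d) (A : Finset (Site d)) (B : Set (Site d)) :
    ∃ y, y ∉ (A : Set (Site d)) ∩ B := by
  have : Nonempty (Fin d) := ⟨⟨0, by omega⟩⟩
  have : Infinite (Site d) := Pi.infinite_of_right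
  obtain ⟨y, hy⟩ := Infinite.exists_notMem_finset A
  exact ⟨y, fun h => hy (by simpa using h.1)⟩

theorem dv_pos {d : ℕ} (hd : 3 ≤ d) (A : Finset (Site d)) (B : Set (Site d)) (x : Site d)
    (hx : x ∈ (A : Set (Site d)) ∩ B) : 1 ≤ dv ((A : Set (Site d)) ∩ B) x := by
  obtain ⟨y, hy⟩ := exists_not_mem hd A B
  have hne : {j | ∃ y, y ∉ (A : Set (Site d)) ∩ B ∧ l1 (y - x) = j}.Nonempty :=
    ⟨_, y, hy, rfl⟩
  have hm := Nat.sInf_mem hne
  by_contra h0
  have h1 : dv ((A : Set (Site d)) ∩ B) x = 0 := by omega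
  unfold dv at h1
  rw [h1] at hm
  obtain ⟨z, hz, hz2⟩ := hm
  have := l1_eq_zero hz2
  rw [sub_eq_zero] at this
  subst this
  exact hz hx

theorem mem_of_lt_dv {d : ℕ} (S : Set (Site d)) (x y : Site d) (h : l1 (y - x) < dv S x) :
    y ∈ S := by
  by_contra hy
  have : dv S x ≤ l1 (y - x) := Nat.sInf_le ⟨y, hy, rfl⟩
  omega

theorem cr_le {d : ℕ} (g : ℕ → ℝ) (S : Set (Site d)) (c : ℝ) (hc : 0 ≤ c) :
    ∀ F : List (Site d), (∀ y ∈ F, g (dv S y) ≤ c) → cr g S F ≤ c
  | [], _ => hc
  | x :: F, h => by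
    unfold cr
    exact max_le (h x (by simp)) (cr_le g S c hc F fun y hy => h y (by simp [hy]))

theorem sum_map_symm {d : ℕ} (k : Site d → ℝ) (hk : ∀ x, k (-x) = k x) (x : Site d)
    (Z : List (Site d)) : (Z.map fun p => k (p - x)).sum = (Z.map fun p => k (x - p)).sum := by
  congr 1
  apply List.map_congr_left
  intro p _
  rw [← hk (x - p), neg_sub]

theorem en_cons {d : ℕ} (k : Site d → ℝ) (hk : ∀ x, k (-x) = k x) (x : Site d)
    (Z : List (Site d)) :
    en k (x :: Z) = en k Z + 2 * (Z.map fun q => k (x - q)).sum + k 0 := by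
  unfold en
  simp only [List.map_cons, List.sum_cons, sub_self]
  rw [List.sum_map_add, sum_map_symm k hk]
  ring

theorem en_perm {d : ℕ} (k : Site d → ℝ) {Z Z' : List (Site d)} (h : Z.Perm Z') :
    en k Z = en k Z' := by
  unfold en
  have h1 : ∀ p : Site d, (Z.map fun q => k (p - q)).sum = (Z'.map fun q => k (p - q)).sum :=
    fun p => (h.map _).sum_eq
  simp only [h1]
  exact (h.map _).sum_eq

theorem en_mid {d : ℕ} (k : Site d → ℝ) (hk : ∀ x, k (-x) = k x) (x : Site d)
    (U F : List (Site d)) :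
    en k (U ++ x :: F) = en k (U ++ F) + 2 * ((U ++ F).map fun q => k (x - q)).sum + k 0 := by
  rw [en_perm k (List.perm_middle (a := x) (l₁ := U) (l₂ := F)), en_cons k hk]

theorem en_ge {d : ℕ} (k : Site d → ℝ) (hk : ∀ x, 0 ≤ k x) (U V : List (Site d)) :
    en k U ≤ en k (U ++ V) := by
  unfold en
  rw [List.map_append, List.sum_append]
  have h1 : (U.map fun p => (U.map fun q => k (p - q)).sum).sum ≤
      (U.map fun p => ((U ++ V).map fun q => k (p - q)).sum).sum := by
    apply List.sum_le_sum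
    intro p _
    rw [List.map_append, List.sum_append]
    have : 0 ≤ (V.map fun q => k (p - q)).sum := by
      apply List.sum_nonneg
      intro a ha
      rw [List.mem_map] at ha
      obtain ⟨q, _, rfl⟩ := ha
      exact hk _
    linarith
  have h2 : 0 ≤ (V.map fun p => ((U ++ V).map fun q => k (p - q)).sum).sum := by
    apply List.sum_nonneg
    intro a ha
    rw [List.mem_map] at ha
    obtain ⟨p, _, rfl⟩ := ha
    apply List.sum_nonneg
    intro a ha
    rw [List.mem_map] at ha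
    obtain ⟨q, _, rfl⟩ := ha
    exact hk _
  linarith

theorem sum_finset_le_list {d : ℕ} [DecidableEq (Site d)] (f : Site d → ℝ) (hf : ∀ x, 0 ≤ f x) :
    ∀ Z : List (Site d), ∑ y ∈ Z.toFinset, f y ≤ (Z.map f).sum
  | [] => by simp
  | x :: Z => by
    rw [List.toFinset_cons, List.map_cons, List.sum_cons]
    have h1 := sum_finset_le_list f hf Z
    by_cases hx : x ∈ Z.toFinset
    · rw [Finset.insert_eq_of_mem hx]
      linarith [hf x]
    · rw [Finset.sum_insert hx]
      linarith

theorem sum_map_sub' {d : ℕ} (f h : Site d → ℝ) :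
    ∀ Z : List (Site d), (Z.map f).sum - (Z.map h).sum = (Z.map fun q => f q - h q).sum
  | [] => by simp
  | x :: Z => by
    simp only [List.map_cons, List.sum_cons]
    rw [← sum_map_sub' f h Z]; ring

theorem PP_nonneg {d : ℕ} (k : Site d → ℝ) (hk : ∀ x, 0 ≤ k x) (x : Site d) : 0 ≤ PP k x := by
  unfold PP
  exact div_nonneg (Finset.sum_nonneg fun _ _ => hk _) (by positivity)

/-- The algebraic inequality. -/
theorem key {d : ℕ} (ν : PMF ℕ) (k : Site d → ℝ) (l : ℕ) (μ γ : ℝ) (g : ℕ → ℝ)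
    (B : Set (Site d)) (x0 x : Site d) (w : ℝ) (S0 : List (Site d)) (A : Finset (Site d))
    (F M O : List (Site d)) (hd : 3 ≤ d) (hP : Par d ν k l μ γ g)
    (hE : EI B w x0 S0 ⟨A, x :: F, M, O⟩)
    (hmin : ∀ y ∈ F, dv ((A : Set (Site d)) ∩ B) x ≤ dv ((A : Set (Site d)) ∩ B) y) :
    μ * sg2 ν * PP (PP k) 0 + 1 + cr g ((A : Set (Site d)) ∩ B) (x :: F) ≤
      2 * μ * (((S0 ++ M ++ F).map fun q => k (x - q)).sum -
        ((S0 ++ M ++ F).map fun q => PP k (x - q)).sum) +
      pp d ν * rw' l γ g (dv ((A : Set (Site d)) ∩ B) x) := by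
  classical
  set S : Set (Site d) := (A : Set (Site d)) ∩ B with hS
  have hxS : x ∈ S := ⟨by exact_mod_cast (hE.act x (by simp)).1, (hE.act x (by simp)).2⟩
  have hj1 : 1 ≤ dv S x := dv_pos hd A B x hxS
  have hcr : cr g S (x :: F) ≤ g (dv S x) := by
    apply cr_le g S _ (hP.g_nn _)
    intro y hy
    rw [List.mem_cons] at hy
    rcases hy with rfl | hy
    · exact le_rfl
    · exact hP.g_anti (hmin y hy)
  have hdiff : ((S0 ++ M ++ F).map fun q => k (x - q)).sum -
        ((S0 ++ M ++ F).map fun q => PP k (x - q)).sum =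
      ((S0 ++ M ++ F).map fun q => k (x - q) - PP k (x - q)).sum :=
    sum_map_sub' _ _ _
  rw [hdiff]
  have hnn : ∀ y, 0 ≤ k y - PP k y := fun y => sub_nonneg.2 (hP.k_sup y)
  have hsum0 : 0 ≤ ((S0 ++ M ++ F).map fun q => k (x - q) - PP k (x - q)).sum := by
    apply List.sum_nonneg
    intro a ha
    rw [List.mem_map] at ha
    obtain ⟨q, _, rfl⟩ := ha
    exact hnn _
  have hmu := hP.mu_pos
  have hs2 : 0 ≤ 2 * μ * ((S0 ++ M ++ F).map fun q => k (x - q) - PP k (x - q)).sum :=
    mul_nonneg (by positivity) hsum0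
  rcases Nat.lt_or_ge (dv S x) 2 with h2 | h2
  · have hj : dv S x = 1 := by omega
    have := hP.ca
    rw [hj] at hcr ⊢
    simp only [rw', le_refl, if_true]
    linarith
  · rcases Nat.lt_or_ge l (dv S x) with h3 | h3
    · have hr : rw' l γ g (dv S x) = 0 := by
        unfold rw'
        rw [if_neg (by omega), if_neg (by omega)]
      rw [hr, mul_zero, add_zero]
      have hg0 : g (dv S x) = 0 := hP.g_far _ h3
      set Z := (S0 ++ M).map (fun q => x - q) with hZ
      have hcc := hP.cc Z.toFinset (by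
        intro y hy
        rw [List.mem_toFinset, hZ, List.mem_map]
        refine ⟨x - y, ?_, by abel⟩
        have h4 : x - y ∈ S := by
          apply mem_of_lt_dv S x
          have : l1 (x - y - x) = l1 y := by
            rw [← l1_neg]; congr 1; abel
          omega
        have h5 := hE.cov (x - y) (by exact_mod_cast h4.1) h4.2
        rw [List.mem_append]
        exact h5)
      have h6 := sum_finset_le_list (fun y => k y - PP k y) hnn Z
      have h7 : (Z.map fun y => k y - PP k y).sum ≤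
          ((S0 ++ M ++ F).map fun q => k (x - q) - PP k (x - q)).sum := by
        rw [List.map_append (l₁ := S0 ++ M), List.sum_append, hZ, List.map_map]
        have : 0 ≤ (F.map fun q => k (x - q) - PP k (x - q)).sum := by
          apply List.sum_nonneg
          intro a ha
          rw [List.mem_map] at ha
          obtain ⟨q, _, rfl⟩ := ha
          exact hnn _
        have h8 : ((fun y => k y - PP k y) ∘ fun q => x - q) =
          fun q => k (x - q) - PP k (x - q) := rfl
        rw [h8]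
        linarith
      have h9 : 2 * μ * ∑ y ∈ Z.toFinset, (k y - PP k y) ≤
          2 * μ * ((S0 ++ M ++ F).map fun q => k (x - q) - PP k (x - q)).sum :=
        mul_le_mul_of_nonneg_left (h6.trans h7) (by positivity)
      linarith
    · have hr : rw' l γ g (dv S x) = g (dv S x - 1) := by
        unfold rw'
        rw [if_neg (by omega), if_pos h3]
      rw [hr]
      have := hP.cb (dv S x) h2 h3
      linarith

theorem rw'_le {d : ℕ} {ν : PMF ℕ} {k : Site d → ℝ} {l : ℕ} {μ γ : ℝ} {g : ℕ → ℝ}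
    (hP : Par d ν k l μ γ g) (j : ℕ) : rw' l γ g j ≤ γ := by
  unfold rw'
  split_ifs with h1 h2
  · exact le_rfl
  · exact hP.g_le _ (by omega)
  · exact hP.ga_pos.le

theorem rw'_nn {d : ℕ} {ν : PMF ℕ} {k : Site d → ℝ} {l : ℕ} {μ γ : ℝ} {g : ℕ → ℝ}
    (hP : Par d ν k l μ γ g) (j : ℕ) : 0 ≤ rw' l γ g j := by
  unfold rw'
  split_ifs with h1 h2
  · exact hP.ga_pos.le
  · exact hP.g_nn _
  · exact le_rfl

theorem t_FAM : S_FAM := by
  intro hDRF d ν k l μ γ w g D B x0 x S0 A F M O hd hH hP hw hE hmin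
  have hxA : x ∈ A ∧ x ∈ B := hE.act x (by simp)
  have hF : ∀ y ∈ F, y ∈ A ∧ y ∈ B := fun y hy => hE.act y (by simp [hy])
  set S : Set (Site d) := (A : Set (Site d)) ∩ B with hS
  set c : ℝ := rw' l γ g (dv S x) / (2 * d) with hc
  set K : ℝ := ((S0 ++ M ++ F).map fun q => PP k (x - q)).sum with hK
  set N : ℝ := ((M ++ F).map fun y => nsq (y - x0)).sum with hN
  set T : ℝ := PP (PP k) 0 with hT
  have hd0 : (0 : ℝ) < d := by
    have : 0 < d := by omega
    exact_mod_cast this
  -- the bound for `m` children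
  set W : ℕ → ℝ := fun m => (μ * (en k (S0 ++ M ++ F) + 2 * m * K + m * k 0 +
      m * (m - 1) * T - en k S0) + N + m * (nsq (x - x0) + 1) +
      γ * (F.length + m) - (if m = 0 then 0 else c)) / w ^ 2 with hW
  have hstep : ∀ m : ℕ, stE D B x m (fun e => ENNReal.ofReal (VV k μ γ w g B x0 S0 e))
      ⟨A, F, M, O⟩ ≤ ENNReal.ofReal (W m) := fun m =>
    hDRF d ν k l μ γ w g D B x0 x S0 A F M O m hd hP hw hF hxA.1 hxA.2
  have hKnn : 0 ≤ K := by
    apply List.sum_nonneg
    intro a ha
    rw [List.mem_map] at ha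
    obtain ⟨q, _, rfl⟩ := ha
    exact PP_nonneg k hP.k_nn _
  have hNnn : 0 ≤ N := by
    apply List.sum_nonneg
    intro a ha
    rw [List.mem_map] at ha
    obtain ⟨q, _, rfl⟩ := ha
    exact nsq_nonneg _
  have hTnn : 0 ≤ T := PP_nonneg _ (PP_nonneg k hP.k_nn) _
  have hen : en k S0 ≤ en k (S0 ++ M ++ F) := by
    rw [List.append_assoc]; exact en_ge k hP.k_nn _ _
  have hcle : c ≤ γ := by
    rw [hc, div_le_iff₀ (by positivity)]
    have h1 := rw'_le hP (dv S x)
    have h2 : (1 : ℝ) ≤ 2 * d := by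
      have : (3 : ℝ) ≤ d := by exact_mod_cast hd
      linarith
    nlinarith [hP.ga_pos]
  have hmu := hP.mu_pos
  have hga := hP.ga_pos
  have hWnn : ∀ m, 0 ≤ W m := by
    intro m
    apply div_nonneg _ (by positivity)
    have hm0 : (0 : ℝ) ≤ m := Nat.cast_nonneg m
    have h0 : 0 ≤ (m : ℝ) * (m - 1) * T := by
      rcases Nat.eq_zero_or_pos m with rfl | hm
      · simp
      · have : (1 : ℝ) ≤ m := by exact_mod_cast hm
        have : (0 : ℝ) ≤ m - 1 := by linarith
        positivity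
    have h1 : 0 ≤ μ * (en k (S0 ++ M ++ F) + 2 * m * K + m * k 0 +
      m * (m - 1) * T - en k S0) := by
      apply mul_nonneg hmu.le
      have h2 : 0 ≤ 2 * m * K := by positivity
      have h3 : 0 ≤ m * k 0 := mul_nonneg hm0 (hP.k_nn 0)
      linarith
    have h4 : 0 ≤ m * (nsq (x - x0) + 1) := by
      have := nsq_nonneg (x - x0)
      positivity
    have h5 : (if m = 0 then 0 else c) ≤ γ * (F.length + m) := by
      split_ifs with h6
      · positivity
      · have : (1 : ℝ) ≤ m := by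
          have : 1 ≤ m := by omega
          exact_mod_cast this
        have hF0 : (0 : ℝ) ≤ F.length := Nat.cast_nonneg _
        nlinarith
    linarith
  -- the mean value
  have hsum : HasSum (fun m : ℕ => (ν m).toReal * W m)
      ((μ * (en k (S0 ++ M ++ F) + 2 * K + k 0 + sg2 ν * T - en k S0) + N +
        (nsq (x - x0) + 1) + γ * (F.length + 1) - (1 - (ν 0).toReal) * c) / w ^ 2) := by
    have h0 := (pmf_sum_one ν).mul_right
      (μ * (en k (S0 ++ M ++ F) - en k S0) + N + γ * F.length)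
    have h1 := hH.mean.mul_right (μ * (2 * K + k 0) + (nsq (x - x0) + 1) + γ)
    have h2 := (hasSum_fac ν hH).mul_right (μ * T)
    have h3 := hasSum_zero ν c
    have h4 := (((h0.add h1).add h2).sub h3).div_const (w ^ 2)
    have h5 : ((μ * (en k (S0 ++ M ++ F) + 2 * K + k 0 + sg2 ν * T - en k S0) + N +
        (nsq (x - x0) + 1) + γ * (F.length + 1) - (1 - (ν 0).toReal) * c) / w ^ 2) =
      ((1 * (μ * (en k (S0 ++ M ++ F) - en k S0) + N + γ * ↑F.length) +
        1 * (μ * (2 * K + k 0) + (nsq (x - x0) + 1) + γ) +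
          sg2 ν * (μ * T) - (1 - (ν 0).toReal) * c) / w ^ 2) := by
      congr 1
      ring
    rw [h5]
    refine h4.congr_fun ?_ |> fun h => h
    intro m
    simp only [hW]
    ring
  have htop : topE ν D B x (fun e => ENNReal.ofReal (VV k μ γ w g B x0 S0 e)) ⟨A, F, M, O⟩ ≤
      ENNReal.ofReal (∑' m, (ν m).toReal * W m) := by
    rw [ENNReal.ofReal_tsum_of_nonneg
      (fun m => mul_nonneg ENNReal.toReal_nonneg (hWnn m)) hsum.summable]
    unfold topE
    refine ENNReal.tsum_le_tsum fun m => ?_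
    rw [ENNReal.ofReal_mul ENNReal.toReal_nonneg, ENNReal.ofReal_toReal (ν.apply_ne_top m)]
    gcongr
    exact hstep m
  refine htop.trans (ENNReal.ofReal_le_ofReal ?_)
  rw [hsum.tsum_eq]
  unfold VV
  apply div_le_div_of_nonneg_right _ (by positivity)
  have hkey := key ν k l μ γ g B x0 x w S0 A F M O hd hP hE hmin
  rw [← hS] at hkey
  have hen2 : en k (S0 ++ M ++ x :: F) = en k (S0 ++ M ++ F) +
      2 * ((S0 ++ M ++ F).map fun q => k (x - q)).sum + k 0 := en_mid k hP.k_symm x (S0 ++ M) F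
  have hN2 : ((M ++ x :: F).map fun y => nsq (y - x0)).sum = N + nsq (x - x0) := by
    rw [hN, List.map_append, List.map_cons, List.sum_append, List.sum_cons, List.map_append,
      List.sum_append]
    ring
  have hlen : (((x :: F).length : ℕ) : ℝ) = F.length + 1 := by simp
  have hpp : pp d ν * rw' l γ g (dv S x) = (1 - (ν 0).toReal) * c := by
    rw [hc]; unfold pp; ring
  simp only
  rw [hen2, hN2, hlen, ← hS]
  rw [hpp] at hkey
  nlinarith [hkey]

end Pool.Agent.H37.BD
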