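import Mathlib
import Pool.Agent.H3.BI.Stm2

set_option autoImplicit false

open scoped ENNReal
open Finset MeasureTheory
open Pool.Agent.H3.BI

namespace Pool.Agent.H37.BD.Suh

theorem nsq_eq_qr {d : ℕ} (x z : Site d) :
    nsq (x - z) = qr (fun i => (x i : ℝ) - (fun j => (z j : ℝ)) i) := by
  unfold nsq qr
  apply Finset.sum_congr rfl
  intro i _
  simp

theorem PP_eq_PR {d : ℕ} (G : (Fin d → ℝ) → ℝ) (zs : Fin d → ℝ) (x : Site d) :
    PP (fun y => G (fun i => (y i : ℝ) - zs i)) x = PR G (fun i => (x i : ℝ) - zs i) := by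
  unfold PP PR
  congr 1
  apply Finset.sum_congr rfl
  intro e _
  change G (fun i => (((x + uvec e) i : ℤ) : ℝ) - zs i) = G _
  congr 1
  funext i
  simp only [Pi.add_apply, uvec, rvec, Pi.single_apply]
  split_ifs <;> push_cast <;> ring

theorem nsq_add_uvec {d : ℕ} (x : Site d) (e : Dir d) :
    nsq (x + uvec e) = nsq x + 2 * (if e.2 then 1 else -1) * x e.1 + 1 := by
  classical
  unfold nsq
  rw [← Finset.add_sum_erase _ _ (Finset.mem_univ e.1),
    ← Finset.add_sum_erase (Finset.univ) (fun i => (x i : ℝ) ^ 2) (Finset.mem_univ e.1)]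
  have h : ∑ i ∈ Finset.univ.erase e.1, (((x + uvec e) i : ℤ) : ℝ) ^ 2 =
      ∑ i ∈ Finset.univ.erase e.1, (x i : ℝ) ^ 2 := by
    apply Finset.sum_congr rfl
    intro i hi
    have : uvec e i = 0 := by
      unfold uvec
      rw [Pi.single_apply, if_neg (Finset.ne_of_mem_erase hi)]
    rw [Pi.add_apply, this, add_zero]
  rw [h]
  have h2 : (((x + uvec e) e.1 : ℤ) : ℝ) = x e.1 + (if e.2 then 1 else -1) := by
    rw [Pi.add_apply]
    unfold uvec
    rw [Pi.single_eq_same]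
    split_ifs <;> push_cast <;> ring
  rw [h2]
  split_ifs <;> ring

theorem abs_le_nrm {d : ℕ} (x : Site d) (i : Fin d) : |(x i : ℝ)| ≤ nrm x := by
  unfold nrm
  rw [← Real.sqrt_sq_eq_abs]
  exact Real.sqrt_le_sqrt (Finset.single_le_sum (f := fun i => (x i : ℝ) ^ 2)
    (fun _ _ => sq_nonneg _) (Finset.mem_univ i))

theorem nrm_add_uvec {d : ℕ} (x : Site d) (e : Dir d) : nrm (x + uvec e) ≤ nrm x + 1 := by
  have h0 := nrm_nonneg x
  unfold nrm
  rw [Real.sqrt_le_left (by positivity), nsq_add_uvec]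
  have h1 := Real.sq_sqrt (nsq_nonneg x)
  have h2 := abs_le_nrm x e.1
  unfold nrm at h2
  rw [abs_le] at h2
  split_ifs <;> nlinarith [h2.1, h2.2]

theorem PP_sub {d : ℕ} (f g : Site d → ℝ) (x : Site d) :
    PP (fun y => f y - g y) x = PP f x - PP g x := by
  unfold PP
  rw [← sub_div, ← Finset.sum_sub_distrib]

/-- KDI for the exponent `bt d`. -/
theorem kdi (h : S_KDI) (d : ℕ) (hd : 3 ≤ d) : ∃ C : ℝ, 1 ≤ C ∧ ∀ (a : ℝ) (w : Fin d → ℝ),
    1 ≤ qr w + a → 4 * Real.sqrt (qr w) ≤ qr w + a + 1 → qr w ≤ 2 * (qr w + a) →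
    |(qr w + a) ^ (-bt d) - PR (fun v => (qr v + a) ^ (-bt d)) w -
      2 * bt d * (bt d + 1) / d * a * (qr w + a) ^ (-bt d - 2)| ≤
        C * (qr w + a) ^ (-bt d - 2) := by
  have hb : 0 < bt d := by
    unfold bt
    have : (3 : ℝ) ≤ d := by exact_mod_cast hd
    linarith
  obtain ⟨C, hC, hw⟩ := h d (bt d) hd hb
  refine ⟨C, hC, fun a w h1 h2 h3 => ?_⟩
  have h4 := hw a w h1 h2 h3
  have h5 : bt d * ((d : ℝ) - 2 - 2 * bt d) / d * (qr w + a) ^ (-bt d - 1) +
        2 * bt d * (bt d + 1) * a / d * (qr w + a) ^ (-bt d - 2) =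
      2 * bt d * (bt d + 1) / d * a * (qr w + a) ^ (-bt d - 2) := by
    have : (d : ℝ) - 2 - 2 * bt d = 0 := by unfold bt; ring
    rw [this]; ring
  rwa [h5] at h4

theorem t_SUH : S_SUH := by
  intro hK hG d hd
  obtain ⟨C1, hC1, hw⟩ := kdi hK d hd
  have hd3 : (3 : ℝ) ≤ d := by exact_mod_cast hd
  have hd0 : (0 : ℝ) < d := by linarith
  set β := bt d with hβ
  have hb : 0 < β := by
    rw [hβ]; unfold bt; linarith
  have hex : -((d : ℝ) / 2) - 1 = -β - 2 := by rw [hβ]; unfold bt; ring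
  set P : ℝ := 2 * β * (β + 1) / d with hP
  have hPpos : 0 < P := by positivity
  refine ⟨max 3 (C1 / P), le_max_left _ _, ?_⟩
  intro a b c₀ ha hbb hc0 hc1
  have ha3 : 3 ≤ a := (le_max_left _ _).trans ha
  have hb3 : 3 ≤ b := (le_max_left _ _).trans hbb
  have haP : C1 ≤ P * a := by
    have := (le_max_right _ _).trans ha
    rw [div_le_iff₀ hPpos] at this
    rwa [mul_comm]
  have hbP : C1 ≤ P * b := by
    have := (le_max_right _ _).trans hbb
    rw [div_le_iff₀ hPpos] at this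
    rwa [mul_comm]
  obtain ⟨CG, hCG, hgeo⟩ := hG d c₀ hd hc0 hc1
  set K1 : ℝ := P * a + C1 with hK1
  set K2 : ℝ := (c₀ ^ 2) ^ (-β) * (P * (b / c₀ ^ 2) + C1) * (1 / 4) ^ (-β - 2) with hK2
  have hK1p : 0 ≤ K1 := by rw [hK1]; positivity
  have hK2p : 0 ≤ K2 := by rw [hK2]; positivity
  refine ⟨CG * (2 * b + 64) + K1 + K2, ?_, ?_⟩
  · have : 1 ≤ CG * (2 * b + 64) := one_le_mul_of_one_le_of_one_le hCG (by linarith)
    linarith
  intro N z hGe x hx
  set C := CG * (2 * b + 64) + K1 + K2 with hC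
  have hCbig : CG * (2 * b + 64) ≤ C := by linarith
  have hC1' : 1 ≤ C := by
    have : 1 ≤ CG * (2 * b + 64) := one_le_mul_of_one_le_of_one_le hCG (by linarith)
    linarith
  have hNz : C ≤ N - nrm z := by linarith [hGe.hi]
  have hnz := nrm_nonneg z
  have hN0 : 0 < N := by linarith
  have hGe1 : Geo c₀ 1 N z := ⟨hGe.lo, by linarith [hGe.hi]⟩
  obtain ⟨zs, hE, hin, _⟩ := hgeo N z hGe1
  set t : ℝ := nsq z / N ^ 2 with ht
  have hzsq : nrm z ^ 2 = nsq z := nrm_sq z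
  have htlo : c₀ ^ 2 ≤ t := by
    rw [ht, le_div_iff₀ (by positivity), ← hzsq, ← mul_pow]
    exact pow_le_pow_left₀ (by positivity) hGe.lo 2
  have hthi : t ≤ 1 := by
    rw [ht, div_le_one (by positivity), ← hzsq]
    exact pow_le_pow_left₀ hnz (by linarith) 2
  have ht0 : 0 < t := lt_of_lt_of_le (by positivity) htlo
  -- lower bound for `Ez`
  have hElo : ∀ y : Site d, nrm y ≤ N → 2 * b + 64 ≤ Ez N z y := by
    intro y hy
    have h1 := (hin y hy).1
    have h2 : C ≤ (N - nrm z) ^ 2 :=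
      (le_self_pow₀ hC1' two_ne_zero).trans (pow_le_pow_left₀ (by linarith) hNz 2)
    have h3 : CG * (2 * b + 64) ≤ CG * Ez N z y := by linarith
    exact le_of_mul_le_mul_left h3 (by linarith)
  have hElo2 : ∀ y : Site d, nrm y ≤ N → (2 * b + 64) / t ≤ qr (fun i => (y i : ℝ) - zs i) := by
    intro y hy
    rw [div_le_iff₀ ht0]
    calc 2 * b + 64 ≤ Ez N z y := hElo y hy
      _ = _ := by rw [hE y, mul_comm]
  have hbt : b ≤ b / t := le_div_self (by linarith) ht0 hthi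
  have hsplit : ∀ y : Site d, nrm y ≤ N → (Ez N z y - b) ^ (-β) =
      t ^ (-β) * (qr (fun i => (y i : ℝ) - zs i) + -(b / t)) ^ (-β) := by
    intro y hy
    have h1 := hElo2 y hy
    have h2 : b / t ≤ (2 * b + 64) / t := by gcongr; linarith
    rw [← Real.mul_rpow ht0.le (by linarith), hE y]
    congr 1
    rw [mul_add, mul_neg, mul_div_cancel₀ _ ht0.ne']
    ring
  have hxN : nrm x ≤ N := by linarith
  have hxe : ∀ e : Dir d, nrm (x + uvec e) ≤ N := fun e => by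
    linarith [nrm_add_uvec x e]
  -- first kernel
  set S : ℝ := nsq (x - z) with hS
  have hS0 : 0 ≤ S := nsq_nonneg _
  set w1 : Fin d → ℝ := fun i => (x i : ℝ) - (fun j => (z j : ℝ)) i with hw1
  have hSw : S = qr w1 := nsq_eq_qr x z
  have hPP1 : PP (fun y => (nsq (y - z) + a) ^ (-β)) x =
      PR (fun v => (qr v + a) ^ (-β)) w1 := by
    rw [hw1, ← PP_eq_PR (fun v => (qr v + a) ^ (-β)) (fun j => (z j : ℝ)) x]
    congr 1
    funext y
    rw [nsq_eq_qr]
  have hk1 := hw a w1 (by rw [← hSw]; linarith) (by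
    rw [← hSw]
    have h1 := Real.sq_sqrt hS0
    have h2 := sq_nonneg (Real.sqrt S - 2)
    have h5 : (Real.sqrt S - 2) ^ 2 = S - 4 * Real.sqrt S + 4 := by rw [sub_sq, h1]; ring
    linarith) (by rw [← hSw]; linarith)
  rw [← hPP1, ← hSw, abs_le] at hk1
  -- second kernel
  set q : ℝ := qr (fun i => (x i : ℝ) - zs i) with hq
  have hqlo : (2 * b + 64) / t ≤ q := hElo2 x hxN
  have h2bt : (2 * b + 64) / t = 2 * (b / t) + 64 / t := by ring
  have h64 : 64 ≤ 64 / t := by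
    rw [le_div_iff₀ ht0]; linarith
  have hPP2 : PP (fun y => (Ez N z y - b) ^ (-β)) x =
      t ^ (-β) * PR (fun v => (qr v + -(b / t)) ^ (-β)) (fun i => (x i : ℝ) - zs i) := by
    rw [← PP_eq_PR (fun v => (qr v + -(b / t)) ^ (-β)) zs x]
    unfold PP
    rw [mul_div_assoc', Finset.mul_sum]
    congr 1
    apply Finset.sum_congr rfl
    intro e _
    exact hsplit _ (hxe e)
  have hq64 : 2 * (b / t) + 64 ≤ q := by linarith
  have hbt0 : 0 < b / t := by positivity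
  have hk2 := hw (-(b / t)) (fun i => (x i : ℝ) - zs i) (by rw [← hq]; linarith) (by
    rw [← hq]
    have hq0 : 0 ≤ q := by linarith
    have h1 := Real.sq_sqrt hq0
    have h8 : 8 ≤ Real.sqrt q := by
      rw [show (8 : ℝ) = Real.sqrt 64 by
        rw [show (64 : ℝ) = 8 ^ 2 by norm_num, Real.sqrt_sq (by norm_num)]]
      exact Real.sqrt_le_sqrt (by linarith)
    have h9 : 8 * Real.sqrt q ≤ q := by
      calc 8 * Real.sqrt q ≤ Real.sqrt q * Real.sqrt q :=
            mul_le_mul_of_nonneg_right h8 (Real.sqrt_nonneg q)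
        _ = q := Real.mul_self_sqrt hq0
    linarith) (by rw [← hq]; linarith)
  rw [← hq, abs_le] at hk2
  have hu : uS d a b N z x - PP (uS d a b N z) x =
      ((S + a) ^ (-β) - PP (fun y => (nsq (y - z) + a) ^ (-β)) x) -
      t ^ (-β) * ((q + -(b / t)) ^ (-β) -
        PR (fun v => (qr v + -(b / t)) ^ (-β)) (fun i => (x i : ℝ) - zs i)) := by
    have h1 : PP (uS d a b N z) x = PP (fun y => (nsq (y - z) + a) ^ (-β)) x -
        PP (fun y => (Ez N z y - b) ^ (-β)) x := PP_sub _ _ x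
    rw [h1, hPP2]
    unfold uS
    rw [← hβ, hsplit x hxN]
    ring
  set A1 : ℝ := (S + a) ^ (-β) - PP (fun y => (nsq (y - z) + a) ^ (-β)) x with hA1
  set A2 : ℝ := (q + -(b / t)) ^ (-β) -
        PR (fun v => (qr v + -(b / t)) ^ (-β)) (fun i => (x i : ℝ) - zs i) with hA2
  set R1 : ℝ := (S + a) ^ (-β - 2) with hR1
  set R2 : ℝ := (q + -(b / t)) ^ (-β - 2) with hR2
  have hR1p : 0 ≤ R1 := Real.rpow_nonneg (by linarith) _
  have hR2p : 0 ≤ R2 := Real.rpow_nonneg (by linarith) _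
  have htb : 0 < t ^ (-β) := Real.rpow_pos_of_pos ht0 _
  have hA1lo : 0 ≤ A1 := by
    have : C1 * R1 ≤ P * a * R1 := mul_le_mul_of_nonneg_right haP hR1p
    linarith [hk1.1]
  have hA1hi : A1 ≤ K1 * R1 := by rw [hK1]; linarith [hk1.2]
  have hA2hi : A2 ≤ 0 := by
    have h1 : C1 ≤ P * (b / t) := hbP.trans (mul_le_mul_of_nonneg_left hbt hPpos.le)
    have : C1 * R2 ≤ P * (b / t) * R2 := mul_le_mul_of_nonneg_right h1 hR2p
    linarith [hk2.2]
  have hA2lo : -((P * (b / c₀ ^ 2) + C1) * R2) ≤ A2 := by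
    have h1 : b / t ≤ b / c₀ ^ 2 := by gcongr
    have h2 : P * (b / t) * R2 ≤ P * (b / c₀ ^ 2) * R2 := by gcongr
    linarith [hk2.1]
  have hfin : 0 ≤ A1 - t ^ (-β) * A2 := by
    have := mul_nonpos_of_nonneg_of_nonpos htb.le hA2hi
    linarith
  refine ⟨by linarith [hu], ?_⟩
  rw [hu, hex]
  -- comparison of the powers
  have hS1 : R1 ≤ (S + 1) ^ (-β - 2) :=
    Real.rpow_le_rpow_of_nonpos (by linarith) (by linarith) (by linarith)
  have hEx := hin x hxN
  have hqE : q = Ez N z x / t := by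
    rw [hE x, mul_div_cancel_left₀ _ ht0.ne']
  have hQ : 1 / 4 * (S + 1) ≤ q + -(b / t) := by
    have h1 : S ≤ Ez N z x := hEx.2.1
    have h2 := hElo x hxN
    have h3 : q + -(b / t) = (Ez N z x - b) / t := by rw [hqE]; ring
    rw [h3, le_div_iff₀ ht0]
    have h4 : 1 / 4 * (S + 1) ≤ Ez N z x - b := by linarith
    have h5 : 0 ≤ 1 / 4 * (S + 1) := by positivity
    have h6 : 1 / 4 * (S + 1) * t ≤ 1 / 4 * (S + 1) * 1 := mul_le_mul_of_nonneg_left hthi h5
    linarith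
  have hS2 : R2 ≤ (1 / 4) ^ (-β - 2) * (S + 1) ^ (-β - 2) := by
    rw [← Real.mul_rpow (by norm_num) (by linarith)]
    exact Real.rpow_le_rpow_of_nonpos (by positivity) hQ (by linarith)
  have htc : t ^ (-β) ≤ (c₀ ^ 2) ^ (-β) :=
    Real.rpow_le_rpow_of_nonpos (by positivity) htlo (by linarith)
  have hT : (0 : ℝ) ≤ (S + 1) ^ (-β - 2) := Real.rpow_nonneg (by linarith) _
  have hfin2 : -(t ^ (-β) * A2) ≤ K2 * (S + 1) ^ (-β - 2) := by
    have h1 : -A2 ≤ (P * (b / c₀ ^ 2) + C1) * R2 := by linarith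
    calc -(t ^ (-β) * A2) = t ^ (-β) * (-A2) := by ring
      _ ≤ (c₀ ^ 2) ^ (-β) * ((P * (b / c₀ ^ 2) + C1) *
          ((1 / 4) ^ (-β - 2) * (S + 1) ^ (-β - 2))) := by
        apply mul_le_mul htc _ (by linarith) (by positivity)
        refine h1.trans ?_
        exact mul_le_mul_of_nonneg_left hS2 (by positivity)
      _ = K2 * (S + 1) ^ (-β - 2) := by rw [hK2]; ring
  have hfin1 : A1 ≤ K1 * (S + 1) ^ (-β - 2) := hA1hi.trans (mul_le_mul_of_nonneg_left hS1 hK1p)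
  have hCpos : 0 ≤ CG * (2 * b + 64) := by positivity
  calc A1 - t ^ (-β) * A2 ≤ K1 * (S + 1) ^ (-β - 2) + K2 * (S + 1) ^ (-β - 2) := by linarith
    _ ≤ C * (S + 1) ^ (-β - 2) := by
      have := mul_nonneg hCpos hT
      rw [hC, add_mul, add_mul]
      linarith

end Pool.Agent.H37.BD.Suh

namespace Pool.Agent.H37.BD

theorem t_SUH : S_SUH := Suh.t_SUH

end Pool.Agent.H37.BD
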